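import Pool.Agent.D0H86.PW.Stm3

/-!
# Project PW (helper86), module KS: the set `KK c` of exponents is sparse
-/

set_option autoImplicit false

namespace Pool.Agent.D0H30.PW

open Finset Filter Pool.Agent.D0H86.PW

lemma ev_log (c : ℝ) (hc : 0 < c) :
    ∀ᶠ N : ℕ in atTop, (4 + 2 * (Nat.log 2 N : ℝ)) ≤ (N : ℝ) ^ (c / 4) := by
  have h4 : 0 < c / 4 := by positivity
  have h1 : ∀ᶠ x : ℝ in atTop, ‖Real.log x‖ ≤ (1 / 8) * ‖x ^ (c / 4)‖ :=
    (isLittleO_log_rpow_atTop h4).bound (by norm_num)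
  have h2 : ∀ᶠ x : ℝ in atTop, (8 : ℝ) ≤ x ^ (c / 4) := (tendsto_rpow_atTop h4).eventually_ge_atTop 8
  have h3 := tendsto_natCast_atTop_atTop (R := ℝ)
  filter_upwards [h3.eventually h1, h3.eventually h2, eventually_ge_atTop 1] with N a1 a2 a3
  have hN : (1 : ℝ) ≤ (N : ℝ) := by exact_mod_cast a3
  have hlog : 0 ≤ Real.log N := Real.log_nonneg hN
  rw [Real.norm_of_nonneg hlog, Real.norm_of_nonneg (by positivity)] at a1
  have hb : (Nat.log 2 N : ℝ) ≤ 2 * Real.log N := by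
    have e1 : (2 : ℕ) ^ (Nat.log 2 N) ≤ N := Nat.pow_log_le_self 2 (by omega)
    have e2 : ((2 : ℝ)) ^ (Nat.log 2 N) ≤ N := by exact_mod_cast e1
    have e3 := Real.log_le_log (by positivity) e2
    rw [Real.log_pow] at e3
    have e4 : (1 / 2 : ℝ) < Real.log 2 := by
      have := Real.log_two_gt_d9
      linarith
    have e5 : 0 ≤ (Nat.log 2 N : ℝ) := Nat.cast_nonneg _
    nlinarith
  linarith

lemma M1_gt (j : ℕ) : 4 ^ j < M1 j := by
  unfold M1
  rw [← pow_mul, mul_comm, pow_mul]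
  norm_num

lemma M2_gt (j : ℕ) : 4 ^ j < M2 j := by
  have := M1_gt j
  unfold M2
  nlinarith

/-- the multiples of `M` up to `N` if `M` is large -/
noncomputable def F (c : ℝ) (N M : ℕ) : Finset ℕ :=
  open Classical in if (N : ℝ) ^ (c / 2) < M then (Ioc 0 N).filter (M ∣ ·) else ∅

lemma F_card (c : ℝ) (N M : ℕ) (hN : 1 ≤ N) : ((F c N M).card : ℝ) ≤ (N : ℝ) ^ (1 - c / 2) := by
  have hN' : (0 : ℝ) < (N : ℝ) := by exact_mod_cast hN
  unfold F
  split_ifs with h
  · have h0 : (0 : ℝ) < (N : ℝ) ^ (c / 2) := by positivity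
    have e1 : ((Ioc 0 N).filter (M ∣ ·)).card = N / M := Nat.Ioc_filter_dvd_card_eq_div N M
    have e2 : ((N / M : ℕ) : ℝ) ≤ (N : ℝ) / M := Nat.cast_div_le
    calc (((Ioc 0 N).filter (M ∣ ·)).card : ℝ) = ((N / M : ℕ) : ℝ) := by rw [e1]
      _ ≤ (N : ℝ) / M := e2
      _ ≤ (N : ℝ) / (N : ℝ) ^ (c / 2) := by gcongr
      _ = (N : ℝ) ^ (1 - c / 2) := by rw [Real.rpow_sub hN', Real.rpow_one]
  · simp only [card_empty, Nat.cast_zero]
    positivity

lemma sub (c : ℝ) (hc : 0 < c) (N : ℕ) (hN : 1 ≤ N) :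
    (open Classical in (range N).filter (fun k => k ∈ KK c)) ⊆
      range (Nat.sqrt N + 1) ∪
        (range (Nat.log 2 N + 1)).biUnion (fun j => F c N (M1 j) ∪ F c N (M2 j)) := by
  classical
  intro k hk
  rw [mem_filter, mem_range] at hk
  obtain ⟨hkN, j, hj, hjc, hd⟩ := hk
  rw [mem_union]
  by_cases h : k < Nat.sqrt N + 1
  · left
    exact mem_range.2 h
  right
  have hs : Nat.sqrt N < k := by omega
  have hNk : N < k ^ 2 := Nat.sqrt_lt'.1 hs
  have hk0 : 0 < k := by omega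
  have hkR : (0 : ℝ) < (k : ℝ) := by exact_mod_cast hk0
  have hNc : (N : ℝ) ^ (c / 2) ≤ (4 : ℝ) ^ j := by
    calc (N : ℝ) ^ (c / 2) ≤ ((k : ℝ) ^ (2 : ℕ)) ^ (c / 2) := by
          apply Real.rpow_le_rpow (Nat.cast_nonneg _) _ (by positivity)
          exact_mod_cast hNk.le
      _ = (k : ℝ) ^ c := by
          rw [← Real.rpow_natCast, ← Real.rpow_mul hkR.le]
          congr 1
          push_cast
          ring
      _ ≤ 4 ^ j := hjc
  have key : ∀ M : ℕ, 4 ^ j < M → M ∣ k → k ∈ F c N M ∧ j < Nat.log 2 N + 1 := by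
    intro M hM hMk
    have hMk' : M ≤ k := Nat.le_of_dvd hk0 hMk
    constructor
    · unfold F
      have : (N : ℝ) ^ (c / 2) < M := lt_of_le_of_lt hNc (by exact_mod_cast hM)
      rw [if_pos this, mem_filter, mem_Ioc]
      exact ⟨⟨hk0, hkN.le⟩, hMk⟩
    · have h2 : 2 ^ j ≤ N := by
        have : 2 ^ j ≤ 4 ^ j := Nat.pow_le_pow_left (by norm_num) j
        omega
      have := Nat.le_log_of_pow_le (by norm_num : 1 < 2) h2
      omega
  rcases hd with hd | hd
  · obtain ⟨a, b⟩ := key _ (M1_gt j) hd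
    exact mem_biUnion.2 ⟨j, mem_range.2 b, mem_union_left _ a⟩
  · obtain ⟨a, b⟩ := key _ (M2_gt j) hd
    exact mem_biUnion.2 ⟨j, mem_range.2 b, mem_union_right _ a⟩

/-- the set `KK c` is sparse -/
theorem t_KS : S_KS := by
  intro c hc hc1
  filter_upwards [ev_log c hc, eventually_ge_atTop 1] with N h1 hN
  have hN' : (1 : ℝ) ≤ (N : ℝ) := by exact_mod_cast hN
  have hN0 : (0 : ℝ) < (N : ℝ) := by linarith
  set A : ℝ := (N : ℝ) ^ (1 - c / 2) with hA
  have hA1 : 1 ≤ A := Real.one_le_rpow hN' (by linarith)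
  have hsq : (Nat.sqrt N : ℝ) ≤ A := by
    calc (Nat.sqrt N : ℝ) ≤ Real.sqrt N := Real.nat_sqrt_le_real_sqrt
      _ = (N : ℝ) ^ (1 / 2 : ℝ) := Real.sqrt_eq_rpow _
      _ ≤ A := Real.rpow_le_rpow_of_exponent_le hN' (by linarith)
  have hc' : ((open Classical in (range N).filter (fun k => k ∈ KK c)).card : ℝ) ≤
      (Nat.sqrt N + 1) + (Nat.log 2 N + 1) * (A + A) := by
    classical
    have e1 := (card_le_card (sub c hc N hN)).trans (card_union_le _ _)
    have e2 : (((range (Nat.log 2 N + 1)).biUnion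
        (fun j => F c N (M1 j) ∪ F c N (M2 j))).card : ℝ) ≤ (Nat.log 2 N + 1) * (A + A) := by
      calc (((range (Nat.log 2 N + 1)).biUnion
          (fun j => F c N (M1 j) ∪ F c N (M2 j))).card : ℝ)
          ≤ ((∑ j ∈ range (Nat.log 2 N + 1), (F c N (M1 j) ∪ F c N (M2 j)).card : ℕ) : ℝ) := by
            exact_mod_cast card_biUnion_le
        _ = ∑ j ∈ range (Nat.log 2 N + 1), ((F c N (M1 j) ∪ F c N (M2 j)).card : ℝ) := by
            push_cast
            rfl
        _ ≤ ∑ j ∈ range (Nat.log 2 N + 1), (A + A) := by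
            apply sum_le_sum
            intro j _
            have := card_union_le (F c N (M1 j)) (F c N (M2 j))
            calc ((F c N (M1 j) ∪ F c N (M2 j)).card : ℝ)
                ≤ (((F c N (M1 j)).card + (F c N (M2 j)).card : ℕ) : ℝ) := by exact_mod_cast this
              _ = ((F c N (M1 j)).card : ℝ) + ((F c N (M2 j)).card : ℝ) := by push_cast; rfl
              _ ≤ A + A := add_le_add (F_card c N _ hN) (F_card c N _ hN)
        _ = (Nat.log 2 N + 1) * (A + A) := by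
            rw [sum_const, card_range, nsmul_eq_mul]
            push_cast
            rfl
    have e3 : ((open Classical in (range N).filter (fun k => k ∈ KK c)).card : ℝ) ≤
        (((range (Nat.sqrt N + 1)).card + ((range (Nat.log 2 N + 1)).biUnion
        (fun j => F c N (M1 j) ∪ F c N (M2 j))).card : ℕ) : ℝ) := by
      refine le_trans (le_of_eq ?_) (Nat.cast_le.2 e1)
      congr
    rw [card_range] at e3
    push_cast at e3
    linarith
  have hl : 0 ≤ (Nat.log 2 N : ℝ) := Nat.cast_nonneg _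
  calc _ ≤ ((Nat.sqrt N : ℝ) + 1) + (Nat.log 2 N + 1) * (A + A) := hc'
    _ ≤ (A + A) + (Nat.log 2 N + 1) * (A + A) := by linarith
    _ = A * (4 + 2 * (Nat.log 2 N : ℝ)) := by ring
    _ ≤ A * (N : ℝ) ^ (c / 4) := by gcongr
    _ = (N : ℝ) ^ (1 - c / 4) := by
        rw [hA, ← Real.rpow_add hN0]
        congr 1
        ring

end Pool.Agent.D0H30.PW
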