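import Pool.Agent.D0H86.PW.Stm4

/-!
# Project PW (helper86), module SM: the expected number of elements
-/

set_option autoImplicit false

namespace Pool.Agent.D0H30.PW

open Finset Filter Topology Pool.Agent.D0H86.PW

lemma sum_inv_le (N : ℕ) : ∑ k ∈ range N, (1 : ℝ) / (k : ℝ) ≤ 1 + Real.log N := by
  rcases Nat.eq_zero_or_pos N with rfl | hN
  · simp
  obtain ⟨M, rfl⟩ : ∃ M, N = M + 1 := ⟨N - 1, by omega⟩
  rw [sum_range_succ']
  have h1 : ∑ k ∈ range M, (1 : ℝ) / ((k + 1 : ℕ) : ℝ) = ((harmonic M : ℚ) : ℝ) := by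
    unfold harmonic
    push_cast
    apply sum_congr rfl
    intro k _
    rw [one_div]
  have h2 := harmonic_le_one_add_log M
  have h3 : Real.log (M : ℝ) ≤ Real.log ((M + 1 : ℕ) : ℝ) := by
    rcases Nat.eq_zero_or_pos M with rfl | hM
    · simp
    · apply Real.log_le_log (by exact_mod_cast hM)
      push_cast
      linarith
  rw [h1]
  simp only [Nat.cast_zero, div_zero, add_zero]
  linarith

/-- the expected number of elements -/
theorem t_SM : S_SM := by
  intro κ hκ θ hθ hlim η hη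
  have hs0 : 0 ≤ θ + η / 2 := by positivity
  have hev : ∀ᶠ k : ℕ in atTop, κ k ≤ θ + η / 2 :=
    (hlim.eventually_lt_const (by linarith : θ < θ + η / 2)).mono fun _ h => h.le
  obtain ⟨k0, hk0⟩ := eventually_atTop.1 hev
  set k1 := max k0 1 with hk1
  have hη2 : 0 < η / 2 := by positivity
  have e1 : ∀ᶠ x : ℝ in atTop, ‖Real.log x‖ ≤ (1 / 2) * ‖x ^ (η / 2)‖ :=
    (isLittleO_log_rpow_atTop hη2).bound (by norm_num)
  have e2 : ∀ᶠ x : ℝ in atTop, 2 * ((k1 : ℝ) + 1) ≤ x ^ (η / 2) :=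
    (tendsto_rpow_atTop hη2).eventually_ge_atTop _
  have e3 := tendsto_natCast_atTop_atTop (R := ℝ)
  filter_upwards [e3.eventually e1, e3.eventually e2, eventually_ge_atTop 1] with N a1 a2 a3
  have hN : (1 : ℝ) ≤ (N : ℝ) := by exact_mod_cast a3
  have hN0 : (0 : ℝ) < (N : ℝ) := by linarith
  have hlog : 0 ≤ Real.log N := Real.log_nonneg hN
  rw [Real.norm_of_nonneg hlog, Real.norm_of_nonneg (by positivity)] at a1
  set A : ℝ := (N : ℝ) ^ (θ + η / 2) with hA
  have hA1 : 1 ≤ A := Real.one_le_rpow hN hs0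
  have hterm : ∀ k ∈ range N, ((hh κ k : ℕ) : ℝ)⁻¹ ≤ (if k < k1 then (1 : ℝ) else 0) + A * (1 / (k : ℝ)) := by
    intro k hk
    have hkN := mem_range.1 hk
    have hh1 : (1 : ℝ) ≤ ((hh κ k : ℕ) : ℝ) := by
      have : 1 ≤ hh κ k := le_max_left _ _
      exact_mod_cast this
    by_cases h : k < k1
    · rw [if_pos h]
      have h1 : ((hh κ k : ℕ) : ℝ)⁻¹ ≤ 1 := inv_le_one_of_one_le₀ hh1
      have h2 : 0 ≤ A * (1 / (k : ℝ)) := by positivity
      linarith
    · rw [if_neg h, zero_add]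
      have hkk0 : k0 ≤ k := (le_max_left _ _).trans (not_lt.1 h)
      have hk1' : 1 ≤ k := (le_max_right _ _).trans (not_lt.1 h)
      have hkR : (1 : ℝ) ≤ (k : ℝ) := by exact_mod_cast hk1'
      have hkR0 : (0 : ℝ) < (k : ℝ) := by linarith
      have h1 : (k : ℝ) ^ (1 - (θ + η / 2)) ≤ ((hh κ k : ℕ) : ℝ) := by
        calc (k : ℝ) ^ (1 - (θ + η / 2)) ≤ (k : ℝ) ^ (1 - κ k) :=
              Real.rpow_le_rpow_of_exponent_le hkR (by linarith [hk0 k hkk0])
          _ ≤ (⌈(k : ℝ) ^ (1 - κ k)⌉₊ : ℝ) := Nat.le_ceil _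
          _ ≤ ((hh κ k : ℕ) : ℝ) := by
              have : ⌈(k : ℝ) ^ (1 - κ k)⌉₊ ≤ hh κ k := le_max_right _ _
              exact_mod_cast this
      have h2 : 0 < (k : ℝ) ^ (1 - (θ + η / 2)) := by positivity
      calc ((hh κ k : ℕ) : ℝ)⁻¹ ≤ ((k : ℝ) ^ (1 - (θ + η / 2)))⁻¹ := inv_anti₀ h2 h1
        _ = (k : ℝ) ^ (θ + η / 2) * (1 / (k : ℝ)) := by
            rw [Real.rpow_sub hkR0, Real.rpow_one]
            field_simp
        _ ≤ A * (1 / (k : ℝ)) := by
            apply mul_le_mul_of_nonneg_right _ (by positivity)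
            exact Real.rpow_le_rpow hkR0.le (by exact_mod_cast hkN.le) hs0
  have hcount : ∑ k ∈ range N, (if k < k1 then (1 : ℝ) else 0) ≤ k1 := by
    rw [← sum_filter, sum_const, nsmul_eq_mul, mul_one]
    have : ((range N).filter (fun k => k < k1)).card ≤ k1 := by
      calc ((range N).filter (fun k => k < k1)).card ≤ (range k1).card := by
            apply card_le_card
            intro k hk
            exact mem_range.2 (mem_filter.1 hk).2
        _ = k1 := card_range _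
    exact_mod_cast this
  have hinv := sum_inv_le N
  calc ∑ k ∈ range N, ((hh κ k : ℕ) : ℝ)⁻¹
      ≤ ∑ k ∈ range N, ((if k < k1 then (1 : ℝ) else 0) + A * (1 / (k : ℝ))) := sum_le_sum hterm
    _ = ∑ k ∈ range N, (if k < k1 then (1 : ℝ) else 0) + A * ∑ k ∈ range N, (1 : ℝ) / (k : ℝ) := by
        rw [sum_add_distrib, mul_sum]
    _ ≤ k1 + A * (1 + Real.log N) := by
        apply add_le_add hcount
        exact mul_le_mul_of_nonneg_left hinv (by positivity)
    _ ≤ A * k1 + A * (1 + Real.log N) := by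
        have : (0 : ℝ) ≤ k1 := Nat.cast_nonneg _
        nlinarith
    _ = A * ((k1 : ℝ) + 1 + Real.log N) := by ring
    _ ≤ A * (N : ℝ) ^ (η / 2) := by
        apply mul_le_mul_of_nonneg_left _ (by positivity)
        linarith
    _ = (N : ℝ) ^ (θ + η) := by
        rw [hA, ← Real.rpow_add hN0]
        congr 1
        ring

end Pool.Agent.D0H30.PW
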