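import Pool.Agent.D0H86.PW.Stm4

/-!
# Project PW (helper86), module SP: the random set is sparse
-/

set_option autoImplicit false

namespace Pool.Agent.D0H30.PW

open Finset Filter MeasureTheory ProbabilityTheory Topology Pool.Agent.D0H86.PW

open Classical in
/-- the number of the unperturbed exponents `k < N` -/
noncomputable def Xn {Ω : Type} (a : ℕ → Ω → ℕ) (N : ℕ) (ω : Ω) : ℕ :=
  ((range N).filter (fun k => a k ω = 2 ^ k)).card

lemma Xn_mono {Ω : Type} (a : ℕ → Ω → ℕ) (ω : Ω) {N N' : ℕ} (h : N ≤ N') : Xn a N ω ≤ Xn a N' ω := by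
  unfold Xn
  apply card_le_card
  exact filter_subset_filter _ (range_mono h)

lemma markov {Ω : Type} [MeasurableSpace Ω] (μ : Measure Ω) [IsProbabilityMeasure μ]
    (a : ℕ → Ω → ℕ) (H : ℕ → ℕ) (hM : Model μ a H) (hH : ∀ k, 1 ≤ H k) (N : ℕ) (b c : ℝ) (hb : 0 < b)
    (hc : ∑ k ∈ range N, ((H k : ℕ) : ℝ)⁻¹ ≤ c) :
    μ {ω | b ≤ (Xn a N ω : ℝ)} ≤ ENNReal.ofReal (c / b) := by
  classical
  have hS : ∀ k, MeasurableSet {ω | a k ω = 2 ^ k} := fun k => hM.meas k (measurableSet_singleton _)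
  have hμ : ∀ k, μ {ω | a k ω = 2 ^ k} = ENNReal.ofReal (((H k : ℕ) : ℝ)⁻¹) := by
    intro k
    have h1 := hM.unif k (2 ^ k)
    rw [if_pos ⟨le_rfl, by have := hH k; omega⟩] at h1
    rw [← h1, ofReal_measureReal]
  have hG : ∀ ω, ((Xn a N ω : ℕ) : ENNReal) =
      ∑ k ∈ range N, ({ω | a k ω = 2 ^ k} : Set Ω).indicator (fun _ => (1 : ENNReal)) ω := by
    intro ω
    unfold Xn
    rw [card_filter]
    push_cast
    apply sum_congr rfl
    intro k _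
    by_cases h : a k ω = 2 ^ k
    · rw [Set.indicator_of_mem (show ω ∈ ({ω | a k ω = 2 ^ k} : Set Ω) from h), if_pos h]
    · rw [Set.indicator_of_notMem (show ω ∉ ({ω | a k ω = 2 ^ k} : Set Ω) from h), if_neg h]
  have hGm : Measurable fun ω => ((Xn a N ω : ℕ) : ENNReal) := by
    simp only [hG]
    exact Finset.measurable_fun_sum _ fun k _ => measurable_const.indicator (hS k)
  have hint : ∫⁻ ω, ((Xn a N ω : ℕ) : ENNReal) ∂μ ≤ ENNReal.ofReal c := by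
    simp only [hG]
    rw [lintegral_finset_sum _ (fun k _ => measurable_const.indicator (hS k))]
    calc ∑ k ∈ range N, ∫⁻ ω, ({ω | a k ω = 2 ^ k} : Set Ω).indicator (fun _ => (1 : ENNReal)) ω ∂μ
        = ∑ k ∈ range N, ENNReal.ofReal (((H k : ℕ) : ℝ)⁻¹) := by
          apply sum_congr rfl
          intro k _
          rw [lintegral_indicator_const (hS k), one_mul, hμ k]
      _ = ENNReal.ofReal (∑ k ∈ range N, ((H k : ℕ) : ℝ)⁻¹) := by
          rw [ENNReal.ofReal_sum_of_nonneg]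
          intro k _
          positivity
      _ ≤ ENNReal.ofReal c := ENNReal.ofReal_le_ofReal hc
  have hsub : {ω | b ≤ (Xn a N ω : ℝ)} ⊆ {ω | ENNReal.ofReal b ≤ ((Xn a N ω : ℕ) : ENNReal)} := by
    intro ω hω
    show ENNReal.ofReal b ≤ ((Xn a N ω : ℕ) : ENNReal)
    rw [← ENNReal.ofReal_natCast]
    exact ENNReal.ofReal_le_ofReal hω
  have hb' : ENNReal.ofReal b ≠ 0 := by
    rw [Ne, ENNReal.ofReal_eq_zero, not_le]
    exact hb
  calc μ {ω | b ≤ (Xn a N ω : ℝ)} ≤ μ {ω | ENNReal.ofReal b ≤ ((Xn a N ω : ℕ) : ENNReal)} :=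
        measure_mono hsub
    _ ≤ (∫⁻ ω, ((Xn a N ω : ℕ) : ENNReal) ∂μ) / ENNReal.ofReal b :=
        meas_ge_le_lintegral_div hGm.aemeasurable hb' ENNReal.ofReal_ne_top
    _ ≤ ENNReal.ofReal c / ENNReal.ofReal b := ENNReal.div_le_div_right hint _
    _ = ENNReal.ofReal (c / b) := (ENNReal.ofReal_div_of_pos hb).symm

lemma one_eta {Ω : Type} [MeasurableSpace Ω] (μ : Measure Ω) [IsProbabilityMeasure μ]
    (a : ℕ → Ω → ℕ) (H : ℕ → ℕ) (hM : Model μ a H) (hH : ∀ k, 1 ≤ H k) (θ : ℝ) (hθ : 0 ≤ θ)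
    (hsum : ∀ η : ℝ, 0 < η → ∀ᶠ N : ℕ in atTop, ∑ k ∈ range N, ((H k : ℕ) : ℝ)⁻¹ ≤ (N : ℝ) ^ (θ + η))
    (η : ℝ) (hη : 0 < η) :
    ∀ᵐ ω ∂μ, ∀ᶠ N : ℕ in atTop, (Xn a N ω : ℝ) ≤ (N : ℝ) ^ (θ + η) := by
  obtain ⟨N0, hN0⟩ := eventually_atTop.1 (hsum (η / 4) (by positivity))
  have hr0 : 0 < (2 : ℝ) ^ (-(η / 4)) := by positivity
  have hr1 : (2 : ℝ) ^ (-(η / 4)) < 1 := Real.rpow_lt_one_of_one_lt_of_neg (by norm_num) (by linarith)
  set s : ℕ → Set Ω := fun j => {ω | ((2 : ℝ) ^ (j + N0)) ^ (θ + η / 2) ≤ (Xn a (2 ^ (j + N0)) ω : ℝ)} with hs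
  have hμs : ∀ j, μ (s j) ≤ ENNReal.ofReal (((2 : ℝ) ^ (-(η / 4))) ^ j) := by
    intro j
    have h1 : N0 ≤ 2 ^ (j + N0) := by
      have := Nat.lt_two_pow_self (n := j + N0)
      omega
    have h2 := hN0 _ h1
    have h3 : (((2 ^ (j + N0) : ℕ)) : ℝ) = (2 : ℝ) ^ (j + N0) := by push_cast; rfl
    rw [h3] at h2
    have hb : 0 < ((2 : ℝ) ^ (j + N0)) ^ (θ + η / 2) := by positivity
    refine (markov μ a H hM hH _ _ _ hb h2).trans ?_
    apply ENNReal.ofReal_le_ofReal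
    have hq : (0 : ℝ) < (2 : ℝ) ^ (j + N0) := by positivity
    rw [← Real.rpow_sub hq]
    have e1 : θ + η / 4 - (θ + η / 2) = -(η / 4) := by ring
    rw [e1, ← Real.rpow_natCast ((2 : ℝ) ^ (-(η / 4))) j, ← Real.rpow_natCast 2 (j + N0),
      ← Real.rpow_mul (by norm_num), ← Real.rpow_mul (by norm_num)]
    apply Real.rpow_le_rpow_of_exponent_le (by norm_num)
    push_cast
    have : (0 : ℝ) ≤ N0 := Nat.cast_nonneg _
    nlinarith
  have hne : ∑' j, μ (s j) ≠ ⊤ := by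
    refine ne_top_of_le_ne_top ?_ (ENNReal.tsum_le_tsum hμs)
    exact (summable_geometric_of_lt_one hr0.le hr1).tsum_ofReal_ne_top
  have hη2 : 0 < η / 2 := by positivity
  have e2 : ∀ᶠ x : ℝ in atTop, (2 : ℝ) ^ (θ + η / 2) ≤ x ^ (η / 2) :=
    (tendsto_rpow_atTop hη2).eventually_ge_atTop _
  have e3 := (tendsto_natCast_atTop_atTop (R := ℝ)).eventually e2
  filter_upwards [ae_eventually_notMem hne] with ω hω
  obtain ⟨J, hJ⟩ := eventually_atTop.1 hω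
  filter_upwards [e3, eventually_ge_atTop (2 ^ (J + N0)), eventually_ge_atTop 1] with N a1 a2 a3
  have hNR : (1 : ℝ) ≤ N := by exact_mod_cast a3
  have hN0' : (0 : ℝ) < N := by linarith
  set l := Nat.log 2 N + 1 with hl
  have hl1 : J + N0 ≤ Nat.log 2 N := Nat.le_log_of_pow_le (by norm_num) a2
  obtain ⟨j, hj⟩ : ∃ j, l = j + N0 := ⟨l - N0, by omega⟩
  have hjJ : J ≤ j := by omega
  have hy1 : N ≤ 2 ^ l := (Nat.lt_pow_succ_log_self (by norm_num) N).le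
  have hy2 : 2 ^ l ≤ 2 * N := by
    have := Nat.pow_log_le_self 2 (by omega : N ≠ 0)
    rw [hl, pow_succ]
    omega
  have h1 := hJ j hjJ
  have h2 : (Xn a (2 ^ (j + N0)) ω : ℝ) < ((2 : ℝ) ^ (j + N0)) ^ (θ + η / 2) := not_le.1 h1
  rw [← hj] at h2
  have h3 : (Xn a N ω : ℝ) ≤ (Xn a (2 ^ l) ω : ℝ) := by exact_mod_cast Xn_mono a ω hy1
  have h4 : ((2 : ℝ) ^ l) ^ (θ + η / 2) ≤ (2 * (N : ℝ)) ^ (θ + η / 2) := by
    apply Real.rpow_le_rpow (by positivity) _ (by positivity)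
    exact_mod_cast hy2
  calc (Xn a N ω : ℝ) ≤ (2 * (N : ℝ)) ^ (θ + η / 2) := by linarith
    _ = (2 : ℝ) ^ (θ + η / 2) * (N : ℝ) ^ (θ + η / 2) := Real.mul_rpow (by norm_num) hN0'.le
    _ ≤ (N : ℝ) ^ (η / 2) * (N : ℝ) ^ (θ + η / 2) := mul_le_mul_of_nonneg_right a1 (by positivity)
    _ = (N : ℝ) ^ (θ + η) := by
        rw [← Real.rpow_add hN0']
        congr 1
        ring

/-- the random set is sparse -/
theorem t_SP : S_SP := by
  intro Ω _ μ _ a H hM hH θ hθ hsum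
  have h : ∀ m : ℕ, ∀ᵐ ω ∂μ, ∀ᶠ N : ℕ in atTop, (Xn a N ω : ℝ) ≤ (N : ℝ) ^ (θ + 1 / ((m : ℝ) + 1)) :=
    fun m => one_eta μ a H hM hH θ hθ hsum _ (by positivity)
  rw [← ae_all_iff] at h
  filter_upwards [h] with ω hω η hη
  obtain ⟨m, hm⟩ := exists_nat_one_div_lt hη
  filter_upwards [hω m, eventually_ge_atTop 1] with N h1 h2
  have hNR : (1 : ℝ) ≤ N := by exact_mod_cast h2
  exact h1.trans (Real.rpow_le_rpow_of_exponent_le hNR (by linarith))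

end Pool.Agent.D0H30.PW
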